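import Mathlib
import Pool.Agent.Helper772_Sph.GMake
import Pool.Agent.Helper772_Sph.GCurveEnd

/-!
# Proper biharmonic hypersurfaces of spheres with an umbilic point

For a proper biharmonic hypersurface of the unit sphere of dimension `m + 1` the mean curvature `H`
is a constant `c` with `0 < |c| ≤ 1`, and the squared length of the second fundamental form is `m`.
If the hypersurface has at least one umbilic point, then it is contained in a small hypersphere of
radius `1 / √2`; otherwise `|c| < 1`.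
-/

set_option autoImplicit false

open Set Filter Topology Matrix
open scoped RealInnerProductSpace ContDiff

namespace Pool.Agent.Results.MP_ecb6bc_gt.UmbilicPoint

/-- The `i`-th partial derivative. -/
noncomputable def pd {m : ℕ} {G : Type} [NormedAddCommGroup G] [NormedSpace ℝ G]
    (u : (Fin m → ℝ) → G) (i : Fin m) (x : Fin m → ℝ) : G :=
  fderiv ℝ u x (Pi.single i (1 : ℝ))

/-- The induced metric `g i j = ⟪∂ i f, ∂ j f⟫`. -/
noncomputable def metric {m : ℕ} (f : (Fin m → ℝ) → EuclideanSpace ℝ (Fin (m + 2)))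
    (x : Fin m → ℝ) : Matrix (Fin m) (Fin m) ℝ :=
  Matrix.of fun i j => inner ℝ (pd f i x) (pd f j x)

/-- The second fundamental form `A i j = ⟪∂ j ∂ i f, N⟫`. -/
noncomputable def secondForm {m : ℕ} (f N : (Fin m → ℝ) → EuclideanSpace ℝ (Fin (m + 2)))
    (x : Fin m → ℝ) : Matrix (Fin m) (Fin m) ℝ :=
  Matrix.of fun i j => inner ℝ (pd (pd f i) j x) (N x)

/-- The shape operator `g⁻¹ * A`. -/
noncomputable def shape {m : ℕ} (f N : (Fin m → ℝ) → EuclideanSpace ℝ (Fin (m + 2)))
    (x : Fin m → ℝ) : Matrix (Fin m) (Fin m) ℝ :=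
  (metric f x)⁻¹ * secondForm f N x

/-- The mean curvature. -/
noncomputable def meanCurv {m : ℕ} (f N : (Fin m → ℝ) → EuclideanSpace ℝ (Fin (m + 2)))
    (x : Fin m → ℝ) : ℝ :=
  Matrix.trace (shape f N x) / (m : ℝ)

/-- The components of the gradient of `u` for the induced metric. -/
noncomputable def grad {m : ℕ} (f : (Fin m → ℝ) → EuclideanSpace ℝ (Fin (m + 2)))
    (u : (Fin m → ℝ) → ℝ) (x : Fin m → ℝ) : Fin m → ℝ :=
  (metric f x)⁻¹.mulVec fun j => pd u j x

/-- The Laplace-Beltrami operator `div grad` of the induced metric. -/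
noncomputable def lap {m : ℕ} (f : (Fin m → ℝ) → EuclideanSpace ℝ (Fin (m + 2)))
    (u : (Fin m → ℝ) → ℝ) (x : Fin m → ℝ) : ℝ :=
  (1 / Real.sqrt (metric f x).det) *
    ∑ i : Fin m, pd (fun y => Real.sqrt (metric f y).det * grad f u y i) i x

/-- `f` is a smooth immersion of the open set `U` in the unit sphere of `ℝ ^ (m + 2)`, with smooth
unit normal `N`. -/
structure IsHypersurface {m : ℕ} (U : Set (Fin m → ℝ))
    (f N : (Fin m → ℝ) → EuclideanSpace ℝ (Fin (m + 2))) : Prop where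
  isOpen : IsOpen U
  smooth : ContDiffOn ℝ ∞ f U
  smoothN : ContDiffOn ℝ ∞ N U
  norm_eq : ∀ x ∈ U, ‖f x‖ = 1
  normN_eq : ∀ x ∈ U, ‖N x‖ = 1
  normal : ∀ x ∈ U, inner ℝ (N x) (f x) = 0
  normal' : ∀ x ∈ U, ∀ i, inner ℝ (N x) (pd f i x) = 0
  immersion : ∀ x ∈ U, LinearIndependent ℝ fun i => pd f i x

/-- The biharmonic equation, in its normal and tangential parts: `div grad H + (m - |A|²) H = 0`
and `2 A (grad H) + m H grad H = 0`. -/
def IsBiharmonic {m : ℕ} (U : Set (Fin m → ℝ))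
    (f N : (Fin m → ℝ) → EuclideanSpace ℝ (Fin (m + 2))) : Prop :=
  ∀ x ∈ U,
    lap f (meanCurv f N) x +
      ((m : ℝ) - Matrix.trace (shape f N x * shape f N x)) * meanCurv f N x = 0 ∧
    (2 : ℝ) • (shape f N x).mulVec (grad f (meanCurv f N) x) +
      ((m : ℝ) * meanCurv f N x) • grad f (meanCurv f N) x = 0

/-! ## Linear algebra -/

lemma zero_of_orth {m : ℕ} {p q : EuclideanSpace ℝ (Fin (m + 2))}
    {e : Fin m → EuclideanSpace ℝ (Fin (m + 2))} (hp : ‖p‖ = 1) (hq : ‖q‖ = 1)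
    (hpq : ⟪p, q⟫ = 0) (hpe : ∀ i, ⟪p, e i⟫ = 0) (hqe : ∀ i, ⟪q, e i⟫ = 0)
    (he : LinearIndependent ℝ e) {w : EuclideanSpace ℝ (Fin (m + 2))} (h1 : ⟪p, w⟫ = 0)
    (h2 : ⟪q, w⟫ = 0) (h3 : ∀ i, ⟪e i, w⟫ = 0) : w = 0 := by
  classical
  have hpp : ⟪p, p⟫ = 1 := by rw [real_inner_self_eq_norm_sq, hp]; norm_num
  have hqq : ⟪q, q⟫ = 1 := by rw [real_inner_self_eq_norm_sq, hq]; norm_num
  let v : Option (Option (Fin m)) → EuclideanSpace ℝ (Fin (m + 2)) := fun o =>
    o.elim q (fun o' => o'.elim p e)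
  have hli : LinearIndependent ℝ v := by
    rw [Fintype.linearIndependent_iff]
    intro c hc
    rw [Fintype.sum_option, Fintype.sum_option] at hc
    simp only [v, Option.elim_none, Option.elim_some] at hc
    have c1 : c none = 0 := by
      have := congrArg (fun z => ⟪q, z⟫) hc
      simp only [inner_add_right, real_inner_smul_right, inner_sum, hqe, hqq, inner_zero_right,
        real_inner_comm p q, hpq] at this
      simpa using this
    have c2 : c (some none) = 0 := by
      have := congrArg (fun z => ⟪p, z⟫) hc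
      simp only [inner_add_right, real_inner_smul_right, inner_sum, hpe, hpp, inner_zero_right,
        hpq] at this
      simpa using this
    rw [c1, c2, zero_smul, zero_smul, zero_add, zero_add] at hc
    have c3 := Fintype.linearIndependent_iff.1 he (fun i => c (some (some i))) hc
    intro o
    rcases o with _ | _ | i
    · exact c1
    · exact c2
    · exact c3 i
  have hsp : Submodule.span ℝ (Set.range v) = ⊤ :=
    hli.span_eq_top_of_card_eq_finrank (by simp)
  have hw : w ∈ Submodule.span ℝ (Set.range v) := by rw [hsp]; trivial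
  obtain ⟨c, hc⟩ := (Submodule.mem_span_range_iff_exists_fun ℝ).1 hw
  have hz : ⟪w, w⟫ = 0 := by
    have e1 : ⟪w, w⟫ = ⟪∑ o, c o • v o, w⟫ := by rw [hc]
    rw [e1, sum_inner]
    refine Finset.sum_eq_zero fun o _ => ?_
    rw [real_inner_smul_left]
    rcases o with _ | _ | i
    · simp [v, h2]
    · simp [v, h1]
    · simp [v, h3]
  exact inner_self_eq_zero.1 hz

open scoped MatrixOrder Matrix.Norms.L2Operator in
lemma trace_sq {m : ℕ} {P K : Matrix (Fin m) (Fin m) ℝ} (hP : P.PosDef) (hK : Kᵀ = K) :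
    0 ≤ Matrix.trace (P * K * (P * K)) ∧ (Matrix.trace (P * K * (P * K)) = 0 → K = 0) := by
  obtain ⟨B, hB⟩ : ∃ B : Matrix (Fin m) (Fin m) ℝ, P = Bᵀ * B := by
    obtain ⟨B, hB⟩ := CStarAlgebra.nonneg_iff_eq_star_mul_self.mp
      (Matrix.nonneg_iff_posSemidef.2 hP.posSemidef)
    exact ⟨B, by rw [hB, Matrix.star_eq_conjTranspose,
      Matrix.conjTranspose_eq_transpose_of_trivial]⟩
  have hdet : IsUnit P.det := isUnit_iff_ne_zero.2 hP.det_pos.ne'
  set W := B * K * Bᵀ with hW
  have hWt : Wᵀ = W := by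
    rw [hW, Matrix.transpose_mul, Matrix.transpose_mul, Matrix.transpose_transpose, hK,
      Matrix.mul_assoc]
  have h1 : Matrix.trace (P * K * (P * K)) = ∑ i, ∑ j, W i j ^ 2 := by
    have h2 : Matrix.trace (P * K * (P * K)) = Matrix.trace (W * W) := by
      rw [hB, hW]
      have e1 : Bᵀ * B * K * (Bᵀ * B * K) = Bᵀ * (B * K * Bᵀ * B * K) := by
        simp only [Matrix.mul_assoc]
      have e2 : B * K * Bᵀ * (B * K * Bᵀ) = (B * K * Bᵀ * B * K) * Bᵀ := by
        simp only [Matrix.mul_assoc]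
      rw [e1, e2, Matrix.trace_mul_comm]
    rw [h2, Matrix.trace]
    refine Finset.sum_congr rfl fun i _ => ?_
    rw [Matrix.diag_apply, Matrix.mul_apply]
    refine Finset.sum_congr rfl fun j _ => ?_
    have : W j i = W i j := congrFun (congrFun hWt i) j
    rw [this, sq]
  rw [h1]
  refine ⟨Finset.sum_nonneg fun i _ => Finset.sum_nonneg fun j _ => sq_nonneg _, fun h => ?_⟩
  have hW0 : W = 0 := by
    ext i j
    have h3 := (Finset.sum_eq_zero_iff_of_nonneg
      (fun i _ => Finset.sum_nonneg fun j _ => sq_nonneg (W i j))).1 h i (Finset.mem_univ i)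
    have h4 := (Finset.sum_eq_zero_iff_of_nonneg (fun j _ => sq_nonneg (W i j))).1 h3 j
      (Finset.mem_univ j)
    simpa using h4
  have h5 : P * K * P = 0 := by
    have e1 : P * K * P = Bᵀ * W * B := by
      rw [hB, hW]
      simp only [Matrix.mul_assoc]
    rw [e1, hW0, Matrix.mul_zero, Matrix.zero_mul]
  calc K = P⁻¹ * (P * K * P) * P⁻¹ := by
        rw [Matrix.mul_assoc P K, ← Matrix.mul_assoc P⁻¹, Matrix.nonsing_inv_mul _ hdet,
          Matrix.one_mul, Matrix.mul_assoc, Matrix.mul_nonsing_inv _ hdet, Matrix.mul_one]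
    _ = 0 := by rw [h5, Matrix.mul_zero, Matrix.zero_mul]

/-! ## Geometry -/

section geo

open Helper772Chen (diffAt symm2 fd_congr fd_apply_const sm_apply_const fd_inner)

variable {m : ℕ} {U : Set (Fin m → ℝ)} {f N : (Fin m → ℝ) → EuclideanSpace ℝ (Fin (m + 2))}

lemma metric_posDef (h : IsHypersurface U f N) {x : Fin m → ℝ} (hx : x ∈ U) :
    (metric f x).PosDef := by
  have h1 : metric f x = Matrix.gram ℝ (fun i => pd f i x) := by
    ext i j
    rw [Matrix.gram_apply]
    rfl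
  rw [h1]
  exact Matrix.posDef_gram_of_linearIndependent (h.immersion x hx)

lemma pd_pd (h : IsHypersurface U f N) {x : Fin m → ℝ} (hx : x ∈ U) (i j : Fin m) :
    pd (pd f i) j x = fderiv ℝ (fderiv ℝ f) x (Pi.single j 1) (Pi.single i 1) :=
  fd_apply_const h.isOpen h.smooth hx _ _

lemma secondForm_symm (h : IsHypersurface U f N) {x : Fin m → ℝ} (hx : x ∈ U) :
    (secondForm f N x)ᵀ = secondForm f N x := by
  ext i j
  change inner ℝ (pd (pd f j) i x) (N x) = inner ℝ (pd (pd f i) j x) (N x)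
  rw [pd_pd h hx, pd_pd h hx, symm2 h.isOpen h.smooth hx]

lemma metric_symm (x : Fin m → ℝ) : (metric f x)ᵀ = metric f x := by
  ext i j
  change inner ℝ (pd f j x) (pd f i x) = inner ℝ (pd f i x) (pd f j x)
  exact real_inner_comm _ _

lemma inner_pdN (h : IsHypersurface U f N) {x : Fin m → ℝ} (hx : x ∈ U) (i j : Fin m) :
    ⟪pd N j x, pd f i x⟫ = -secondForm f N x i j := by
  have h1 : fderiv ℝ (fun y => ⟪N y, fderiv ℝ f y (Pi.single i 1)⟫) x =
      fderiv ℝ (fun _ => (0 : ℝ)) x := fd_congr h.isOpen (fun y hy => h.normal' y hy i) hx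
  have h2 := fd_inner h.isOpen h.smoothN (sm_apply_const h.isOpen h.smooth (Pi.single i 1)) hx
    (Pi.single j 1)
  rw [h1] at h2
  simp only [fderiv_fun_const, Pi.zero_apply, _root_.zero_apply] at h2
  have h3 : secondForm f N x i j =
      ⟪N x, fderiv ℝ (fun y => fderiv ℝ f y (Pi.single i 1)) x (Pi.single j 1)⟫ := by
    rw [real_inner_comm]
    rfl
  rw [h3]
  change ⟪fderiv ℝ N x (Pi.single j 1), fderiv ℝ f x (Pi.single i 1)⟫ = _
  linarith

lemma inner_f_pd (h : IsHypersurface U f N) {x : Fin m → ℝ} (hx : x ∈ U) (j : Fin m) :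
    ⟪f x, pd f j x⟫ = 0 := by
  have h1 : fderiv ℝ (fun y => ⟪f y, f y⟫) x = fderiv ℝ (fun _ => (1 : ℝ)) x :=
    fd_congr h.isOpen (fun y hy => by
      rw [real_inner_self_eq_norm_sq, h.norm_eq y hy]; norm_num) hx
  have h2 := fd_inner h.isOpen h.smooth h.smooth hx (Pi.single j 1)
  rw [h1] at h2
  simp only [fderiv_fun_const, Pi.zero_apply, _root_.zero_apply] at h2
  have h3 := real_inner_comm (f x) (fderiv ℝ f x (Pi.single j 1))
  change ⟪f x, fderiv ℝ f x (Pi.single j 1)⟫ = 0
  linarith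

lemma inner_N_pdN (h : IsHypersurface U f N) {x : Fin m → ℝ} (hx : x ∈ U) (j : Fin m) :
    ⟪N x, pd N j x⟫ = 0 := by
  have h1 : fderiv ℝ (fun y => ⟪N y, N y⟫) x = fderiv ℝ (fun _ => (1 : ℝ)) x :=
    fd_congr h.isOpen (fun y hy => by
      rw [real_inner_self_eq_norm_sq, h.normN_eq y hy]; norm_num) hx
  have h2 := fd_inner h.isOpen h.smoothN h.smoothN hx (Pi.single j 1)
  rw [h1] at h2
  simp only [fderiv_fun_const, Pi.zero_apply, _root_.zero_apply] at h2
  have h3 := real_inner_comm (N x) (fderiv ℝ N x (Pi.single j 1))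
  change ⟪N x, fderiv ℝ N x (Pi.single j 1)⟫ = 0
  linarith

lemma inner_f_pdN (h : IsHypersurface U f N) {x : Fin m → ℝ} (hx : x ∈ U) (j : Fin m) :
    ⟪f x, pd N j x⟫ = 0 := by
  have h1 : fderiv ℝ (fun y => ⟪N y, f y⟫) x = fderiv ℝ (fun _ => (0 : ℝ)) x :=
    fd_congr h.isOpen (fun y hy => h.normal y hy) hx
  have h2 := fd_inner h.isOpen h.smoothN h.smooth hx (Pi.single j 1)
  rw [h1] at h2
  simp only [fderiv_fun_const, Pi.zero_apply, _root_.zero_apply] at h2
  have h3 : ⟪N x, fderiv ℝ f x (Pi.single j 1)⟫ = 0 := h.normal' x hx j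
  have h4 := real_inner_comm (f x) (fderiv ℝ N x (Pi.single j 1))
  change ⟪f x, fderiv ℝ N x (Pi.single j 1)⟫ = 0
  linarith

/-- the mean curvature is constant -/
lemma meanCurv_const (h : IsHypersurface U f N) (hc : IsConnected U) (hb : IsBiharmonic U f N) :
    ∃ c : ℝ, ∀ x ∈ U, meanCurv f N x = c := by
  rcases Nat.eq_zero_or_pos m with hm | hm
  · subst hm
    exact ⟨0, fun x _ => by simp [meanCurv]⟩
  · obtain ⟨B, hBU, hBH⟩ := Helper772Sph.exists_SB m U f N hm h.isOpen h.smooth h.smoothN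
      (fun x hx => ⟨h.norm_eq x hx, h.normN_eq x hx, h.normal x hx, h.normal' x hx,
        h.immersion x hx⟩)
      (metric f) (shape f N) (meanCurv f N) (fun x => rfl) (fun x => rfl) (fun x => rfl)
      (fun x hx => (hb x hx).1) (fun x hx => (hb x hx).2)
    have key : ∀ x ∈ B.U, fderiv ℝ B.H x = 0 := by
      intro x hx
      by_contra hne
      obtain ⟨C, hC⟩ := B.exists_core hm hx hne
      exact C.false_of_nonempty hC
    have hcon := h.isOpen.exists_is_const_of_fderiv_eq_zero (𝕜 := ℝ) (f := B.H)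
      hc.isPreconnected (fun x hx => (diffAt B.hU B.sH (hBU ▸ hx)).differentiableWithinAt)
      (fun x hx => key x (hBU ▸ hx))
    obtain ⟨c, hc'⟩ := hcon
    exact ⟨c, fun x hx => by rw [← hBH]; exact hc' x hx⟩

lemma trace_shape_sq (h : IsHypersurface U f N) (hb : IsBiharmonic U f N) {c : ℝ} (hc0 : c ≠ 0)
    (hc : ∀ x ∈ U, meanCurv f N x = c) {x : Fin m → ℝ} (hx : x ∈ U) :
    Matrix.trace (shape f N x * shape f N x) = m := by
  have h1 : ∀ y ∈ U, ∀ j, pd (meanCurv f N) j y = 0 := by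
    intro y hy j
    have h2 : fderiv ℝ (meanCurv f N) y = fderiv ℝ (fun _ => c) y := fd_congr h.isOpen hc hy
    change fderiv ℝ (meanCurv f N) y _ = 0
    rw [h2]
    simp
  have h3 : ∀ y ∈ U, ∀ i, grad f (meanCurv f N) y i = 0 := by
    intro y hy i
    change ∑ j, (metric f y)⁻¹ i j * pd (meanCurv f N) j y = 0
    exact Finset.sum_eq_zero fun j _ => by rw [h1 y hy, mul_zero]
  have h4 : lap f (meanCurv f N) x = 0 := by
    unfold lap
    rw [Finset.sum_eq_zero, mul_zero]
    intro i _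
    have h5 : fderiv ℝ (fun y => Real.sqrt (metric f y).det * grad f (meanCurv f N) y i) x =
        fderiv ℝ (fun _ => (0 : ℝ)) x :=
      fd_congr h.isOpen (fun y hy => by rw [h3 y hy, mul_zero]) hx
    change fderiv ℝ (fun y => Real.sqrt (metric f y).det * grad f (meanCurv f N) y i) x _ = 0
    rw [h5]
    simp
  have h6 := (hb x hx).1
  rw [h4, zero_add, hc x hx] at h6
  have := (mul_eq_zero.1 h6).resolve_right hc0
  linarith

lemma shape_sub (h : IsHypersurface U f N) (c : ℝ) {x : Fin m → ℝ} (hx : x ∈ U) :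
    shape f N x - c • (1 : Matrix (Fin m) (Fin m) ℝ) =
      (metric f x)⁻¹ * (secondForm f N x - c • metric f x) := by
  rw [Matrix.mul_sub, Matrix.mul_smul, Matrix.nonsing_inv_mul _
    (isUnit_iff_ne_zero.2 (metric_posDef h hx).det_pos.ne')]
  rfl

lemma traceT (h : IsHypersurface U f N) (hm : m ≠ 0) {c : ℝ} {x : Fin m → ℝ} (hx : x ∈ U)
    (hc : meanCurv f N x = c) (ht : Matrix.trace (shape f N x * shape f N x) = m) :
    Matrix.trace ((metric f x)⁻¹ * (secondForm f N x - c • metric f x) *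
      ((metric f x)⁻¹ * (secondForm f N x - c • metric f x))) = m * (1 - c ^ 2) := by
  have hm' : (m : ℝ) ≠ 0 := by exact_mod_cast hm
  have h1 : Matrix.trace (shape f N x) = m * c := by
    rw [← hc, meanCurv, mul_div_cancel₀ _ hm']
  rw [← shape_sub h c hx, Matrix.sub_mul, Matrix.mul_sub, Matrix.mul_sub, Matrix.trace_sub,
    Matrix.trace_sub, Matrix.trace_sub]
  simp only [Matrix.mul_smul, Matrix.smul_mul, Matrix.mul_one, Matrix.one_mul, Matrix.trace_smul,
    Matrix.trace_one, Fintype.card_fin, smul_eq_mul, ht, h1]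
  ring

lemma sphere_of_umbilic (h : IsHypersurface U f N) (hcon : IsConnected U) {c : ℝ}
    (hc : c ^ 2 = 1) (hA : ∀ x ∈ U, secondForm f N x = c • metric f x) :
    ∃ e : EuclideanSpace ℝ (Fin (m + 2)), ‖e‖ = 1 ∧ ∀ x ∈ U, inner ℝ (f x) e = 1 / Real.sqrt 2 := by
  have hw : ∀ x ∈ U, ∀ j, pd N j x + c • pd f j x = 0 := by
    intro x hx j
    refine zero_of_orth (p := N x) (q := f x) (e := fun i => pd f i x) (h.normN_eq x hx)
      (h.norm_eq x hx) (h.normal x hx) (h.normal' x hx) (inner_f_pd h hx) (h.immersion x hx)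
      ?_ ?_ ?_
    · rw [inner_add_right, real_inner_smul_right, inner_N_pdN h hx, h.normal' x hx]
      simp
    · rw [inner_add_right, real_inner_smul_right, inner_f_pdN h hx, inner_f_pd h hx]
      simp
    · intro i
      have e1 : ⟪pd f i x, pd N j x⟫ = -secondForm f N x i j := by
        rw [real_inner_comm]
        exact inner_pdN h hx i j
      rw [inner_add_right, real_inner_smul_right, e1, hA x hx]
      change -(c * inner ℝ (pd f i x) (pd f j x)) + c * ⟪pd f i x, pd f j x⟫ = 0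
      ring
  have hd : ∀ x ∈ U, fderiv ℝ (fun y => N y + c • f y) x = 0 := by
    intro x hx
    have dN : DifferentiableAt ℝ N x := diffAt h.isOpen h.smoothN hx
    have df : DifferentiableAt ℝ f x := diffAt h.isOpen h.smooth hx
    have h1 : fderiv ℝ (fun y => N y + c • f y) x = fderiv ℝ N x + c • fderiv ℝ f x :=
      (dN.hasFDerivAt.add (df.hasFDerivAt.const_smul c)).fderiv
    rw [h1]
    ext1 v
    have hv : v = ∑ j, v j • (Pi.single j (1 : ℝ) : Fin m → ℝ) := by
      ext k
      simp [Finset.sum_apply, Pi.single_apply]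
    rw [hv, map_sum]
    simp only [map_smul]
    rw [_root_.zero_apply]
    refine Finset.sum_eq_zero fun j _ => ?_
    have := hw x hx j
    change v j • (fderiv ℝ N x (Pi.single j 1) + c • fderiv ℝ f x (Pi.single j 1)) = 0
    change fderiv ℝ N x (Pi.single j 1) + c • fderiv ℝ f x (Pi.single j 1) = 0 at this
    rw [this, smul_zero]
  obtain ⟨e, he⟩ := h.isOpen.exists_is_const_of_fderiv_eq_zero (𝕜 := ℝ)
    (f := fun y => N y + c • f y) hcon.isPreconnected
    (fun x hx => ((diffAt h.isOpen h.smoothN hx).add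
      ((diffAt h.isOpen h.smooth hx).const_smul c)).differentiableWithinAt) hd
  obtain ⟨x0, hx0⟩ := hcon.nonempty
  have hf1 : ∀ x ∈ U, ⟪f x, f x⟫ = 1 := fun x hx => by
    rw [real_inner_self_eq_norm_sq, h.norm_eq x hx]; norm_num
  have hN1 : ⟪N x0, N x0⟫ = 1 := by
    rw [real_inner_self_eq_norm_sq, h.normN_eq x0 hx0]; norm_num
  have hfe : ∀ x ∈ U, ⟪f x, e⟫ = c := by
    intro x hx
    rw [← he x hx, inner_add_right, real_inner_smul_right, hf1 x hx, real_inner_comm,
      h.normal x hx]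
    ring
  have hee : ‖e‖ ^ 2 = 2 := by
    rw [← real_inner_self_eq_norm_sq]
    have h1 : ⟪e, e⟫ = ⟪N x0 + c • f x0, e⟫ := by rw [he x0 hx0]
    have h2 : ⟪N x0, e⟫ = 1 := by
      rw [← he x0 hx0, inner_add_right, real_inner_smul_right, hN1, h.normal x0 hx0]
      ring
    rw [h1, inner_add_left, real_inner_smul_left, hfe x0 hx0, h2, ← sq, hc]
    norm_num
  have h2 : ‖e‖ = Real.sqrt 2 := by
    rw [← hee, Real.sqrt_sq (norm_nonneg _)]
  have hs : Real.sqrt 2 ≠ 0 := by positivity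
  have habs : |c| = 1 := by
    have := sq_abs c
    rw [hc] at this
    nlinarith [abs_nonneg c]
  refine ⟨(c / Real.sqrt 2) • e, ?_, fun x hx => ?_⟩
  · rw [norm_smul, h2, Real.norm_eq_abs, abs_div, habs, abs_of_nonneg (Real.sqrt_nonneg 2)]
    field_simp
  · rw [real_inner_smul_right, hfe x hx, div_mul_eq_mul_div, ← sq, hc]

end geo

/-- **Main result.** Let `f : U → S ^ (m + 1)`, `U ⊆ ℝ ^ m` open and connected, be a biharmonic
hypersurface which is not minimal. Then the mean curvature is a constant `c` with `0 < |c| ≤ 1`,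
and `|A|² = trace (S²) = m`. If some point of the hypersurface is umbilic, then every point is, and
`f` takes values in a small hypersphere `{p | ⟪p, e⟫ = 1 / √2}` of radius `1 / √2`. If no point is
umbilic, then `|c| < 1`. -/
theorem result {m : ℕ} {U : Set (Fin m → ℝ)}
    {f N : (Fin m → ℝ) → EuclideanSpace ℝ (Fin (m + 2))} (h : IsHypersurface U f N)
    (hcon : IsConnected U) (hb : IsBiharmonic U f N) (hn : ∃ x ∈ U, meanCurv f N x ≠ 0) :
    ∃ c : ℝ, 0 < |c| ∧ |c| ≤ 1 ∧
      (∀ x ∈ U, meanCurv f N x = c ∧ Matrix.trace (shape f N x * shape f N x) = m) ∧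
      ((∃ x ∈ U, ∃ t : ℝ, shape f N x = t • (1 : Matrix (Fin m) (Fin m) ℝ)) →
        (∀ x ∈ U, shape f N x = c • (1 : Matrix (Fin m) (Fin m) ℝ)) ∧
        ∃ e : EuclideanSpace ℝ (Fin (m + 2)), ‖e‖ = 1 ∧
          ∀ x ∈ U, inner ℝ (f x) e = 1 / Real.sqrt 2) ∧
      ((∀ x ∈ U, ∀ t : ℝ, shape f N x ≠ t • (1 : Matrix (Fin m) (Fin m) ℝ)) → |c| < 1) := by
  obtain ⟨c, hc⟩ := meanCurv_const h hcon hb
  obtain ⟨x1, hx1, hn1⟩ := hn
  have hc0 : c ≠ 0 := by rw [← hc x1 hx1]; exact hn1
  have hm : m ≠ 0 := by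
    rintro rfl
    exact hn1 (by simp [meanCurv])
  have hm' : (0 : ℝ) < m := by exact_mod_cast Nat.pos_of_ne_zero hm
  have ht : ∀ x ∈ U, Matrix.trace (shape f N x * shape f N x) = m := fun x hx =>
    trace_shape_sq h hb hc0 hc hx
  have hK : ∀ x ∈ U, (secondForm f N x - c • metric f x)ᵀ =
      secondForm f N x - c • metric f x := by
    intro x hx
    rw [Matrix.transpose_sub, Matrix.transpose_smul, secondForm_symm h hx, metric_symm]
  have hT : ∀ x ∈ U, 0 ≤ (m : ℝ) * (1 - c ^ 2) ∧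
      ((m : ℝ) * (1 - c ^ 2) = 0 → secondForm f N x - c • metric f x = 0) := by
    intro x hx
    have h1 := trace_sq (metric_posDef h hx).inv (hK x hx)
    rwa [traceT h hm hx (hc x hx) (ht x hx)] at h1
  have hle : c ^ 2 ≤ 1 := by
    have := (hT x1 hx1).1
    by_contra hcon'
    push Not at hcon'
    nlinarith
  have hle' : |c| ≤ 1 := by
    rw [← sq_abs] at hle
    nlinarith [abs_nonneg c]
  have hone : c ^ 2 = 1 → ∀ x ∈ U, secondForm f N x = c • metric f x := by
    intro h1 x hx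
    exact sub_eq_zero.1 ((hT x hx).2 (by rw [h1]; ring))
  have hshape : c ^ 2 = 1 → ∀ x ∈ U, shape f N x = c • (1 : Matrix (Fin m) (Fin m) ℝ) := by
    intro h1 x hx
    have h2 := shape_sub h c hx
    rw [hone h1 x hx, sub_self, Matrix.mul_zero] at h2
    exact sub_eq_zero.1 h2
  refine ⟨c, abs_pos.2 hc0, hle', fun x hx => ⟨hc x hx, ht x hx⟩, ?_, ?_⟩
  · rintro ⟨x, hx, t, hu⟩
    have h1 : c ^ 2 = 1 := by
      have h2 : meanCurv f N x = t := by
        rw [meanCurv, hu, Matrix.trace_smul, Matrix.trace_one, Fintype.card_fin, smul_eq_mul,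
          mul_div_cancel_right₀ _ hm'.ne']
      have h3 := ht x hx
      rw [hu, Matrix.smul_mul, Matrix.mul_smul, Matrix.mul_one, Matrix.trace_smul,
        Matrix.trace_smul, Matrix.trace_one, Fintype.card_fin, smul_eq_mul, smul_eq_mul] at h3
      rw [hc x hx] at h2
      rw [← h2] at h3
      have h4 : (m : ℝ) * (c ^ 2 - 1) = 0 := by linarith
      have := (mul_eq_zero.1 h4).resolve_left hm'.ne'
      linarith
    exact ⟨hshape h1, sphere_of_umbilic h hcon h1 (hone h1)⟩
  · intro hnu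
    refine lt_of_le_of_ne hle' fun h1 => ?_
    have h2 : c ^ 2 = 1 := by rw [← sq_abs, h1]; norm_num
    exact hnu x1 hx1 c (hshape h2 x1 hx1)

end Pool.Agent.Results.MP_ecb6bc_gt.UmbilicPoint
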